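import Pool.Agent.Zk90.TR.Nf5
import Pool.Agent.Zk12.TR.Stm

/-!
# Part B of the rigidity theorem: a place above one branch point determines the place

(helper90.)
-/

set_option autoImplicit false

open Polynomial FF Pool.Agent.Y157.PS

namespace Pool.Agent.Zk90.TR

open Pool.Agent.Zk12 Pool.Agent.Zk12.TR Pool.Agent.Y158.GR

/-- the coordinates in which the branch points are `0, ±1, ±3, ∞` -/
theorem table : ∀ q ∈ BQ, ∃ α β : ℚ, α ≠ 0 ∧
    (∀ t : ℚ, LL t → ∃ b ∈ BQ, b ≠ q ∧ α / (b - q) + β = t) ∧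
    (∀ b ∈ BQ, b ≠ q → LL (α / (b - q) + β)) := by
  intro q hq
  have h : q = 0 ∨ q = 6 ∨ q = 10 ∨ q = 15 ∨ q = 30 ∨ q = -30 := by
    simpa [BQ] using hq
  have key : ∀ α β : ℚ, (∀ b ∈ BQ, b ≠ q → (α / (b - q) + β = 0 ∨ α / (b - q) + β = 1 ∨
      α / (b - q) + β = -1 ∨ α / (b - q) + β = 3 ∨ α / (b - q) + β = -3)) → α ≠ 0 →
      (∃ b ∈ BQ, b ≠ q ∧ α / (b - q) + β = 0) → (∃ b ∈ BQ, b ≠ q ∧ α / (b - q) + β = 1) →
      (∃ b ∈ BQ, b ≠ q ∧ α / (b - q) + β = -1) → (∃ b ∈ BQ, b ≠ q ∧ α / (b - q) + β = 3) →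
      (∃ b ∈ BQ, b ≠ q ∧ α / (b - q) + β = -3) → ∃ α β : ℚ, α ≠ 0 ∧
    (∀ t : ℚ, LL t → ∃ b ∈ BQ, b ≠ q ∧ α / (b - q) + β = t) ∧
    (∀ b ∈ BQ, b ≠ q → LL (α / (b - q) + β)) := by
    intro α β h1 hα g0 g1 g2 g3 g4
    refine ⟨α, β, hα, ?_, h1⟩
    rintro t (rfl | rfl | rfl | rfl | rfl)
    exacts [g0, g1, g2, g3, g4]
  rcases h with rfl | rfl | rfl | rfl | rfl | rfl
  · refine key 30 (-2) ?_ ?_ ?_ ?_ ?_ ?_ ?_ <;> decide +kernel
  · refine key (72 / 5) (-3 / 5) ?_ ?_ ?_ ?_ ?_ ?_ ?_ <;> decide +kernel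
  · refine key (40 / 3) (1 / 3) ?_ ?_ ?_ ?_ ?_ ?_ ?_ <;> decide +kernel
  · refine key (45 / 2) (3 / 2) ?_ ?_ ?_ ?_ ?_ ?_ ?_ <;> decide +kernel
  · refine key 120 5 ?_ ?_ ?_ ?_ ?_ ?_ ?_ <;> decide +kernel
  · refine key 360 (-9) ?_ ?_ ?_ ?_ ?_ ?_ ?_ <;> decide +kernel

/-- **part B** -/
theorem nf : S_NF := by
  intro κ R M _ _ _ _ _ _ _ _ _ x Y hC V h6 φ σ q hq hSA hFro W W' e he e' he' hne hWe hWe' hφ
  haveI : IsAlgClosed κ := IsAlgClosure.isAlgClosed ℚ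
  haveI : CharZero κ := charZero_of_injective_algebraMap (algebraMap ℚ κ).injective
  by_contra hcon
  push Not at hcon
  obtain ⟨qe, hqe, rfl⟩ := mem_BK.1 he
  obtain ⟨qe', hqe', rfl⟩ := mem_BK.1 he'
  obtain ⟨α, β, hα, ht, hv⟩ := table qe hqe
  have hinj := (algebraMap ℚ κ).injective
  have hLL : ∀ t : ℚ, LL t → LL (algebraMap ℚ κ t) := by
    rintro t (rfl | rfl | rfl | rfl | rfl)
    · left; rw [map_zero]
    · right; left; rw [map_one]
    · right; right; left; rw [map_neg, map_one]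
    · right; right; right; left; rw [map_ofNat]
    · right; right; right; right; rw [map_neg, map_ofNat]
  have hLL' : ∀ t : κ, LL t → ∃ s : ℚ, LL s ∧ algebraMap ℚ κ s = t := by
    rintro t (rfl | rfl | rfl | rfl | rfl)
    · exact ⟨0, Or.inl rfl, map_zero _⟩
    · exact ⟨1, Or.inr (Or.inl rfl), map_one _⟩
    · exact ⟨-1, Or.inr (Or.inr (Or.inl rfl)), by rw [map_neg, map_one]⟩
    · exact ⟨3, Or.inr (Or.inr (Or.inr (Or.inl rfl))), by rw [map_ofNat]⟩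
    · exact ⟨-3, Or.inr (Or.inr (Or.inr (Or.inr rfl))), by rw [map_neg, map_ofNat]⟩
  have htK : ∀ t : κ, LL t → ∃ b ∈ BK κ, b ≠ algebraMap ℚ κ qe ∧
      algebraMap ℚ κ α / (b - algebraMap ℚ κ qe) + algebraMap ℚ κ β = t := by
    intro t h
    obtain ⟨s, hs, rfl⟩ := hLL' t h
    obtain ⟨b, hb, hbq, hbs⟩ := ht s hs
    refine ⟨algebraMap ℚ κ b, mem_BK.2 ⟨b, hb, rfl⟩, fun h => hbq (hinj h), ?_⟩
    rw [← hbs, map_add, map_div₀, map_sub]
  have hαK : algebraMap ℚ κ α ≠ 0 := by rwa [Ne, map_eq_zero_iff _ hinj]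
  have hne' : algebraMap ℚ κ qe' ≠ algebraMap ℚ κ qe := hne
  have hTT : ∀ t : κ, LL t → _ := fun t h => TT_facts (β := algebraMap ℚ κ β) hC he hαK (htK t h)
  have hDat : Dat x (algebraMap ℚ κ qe)
      (TT κ x (algebraMap ℚ κ qe) (algebraMap ℚ κ α) (algebraMap ℚ κ β) : M) φ σ W := by
    refine ⟨fun t h => (hTT t h).1, fun t h => (hTT t h).2.1, fun t h => (hTT t h).2.2, ?_, ?_,
      hSA.const, ?_, hWe, hφ⟩
    · intro c
      unfold TT
      rw [map_add, map_div₀, map_sub, c.commutes, gal_const, gal_const, gal_const]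
    · unfold TT
      rw [map_add, map_div₀, map_sub, hSA.fixx, hSA.const, hSA.const, hSA.const, σ.commutes,
        σ.commutes, σ.commutes]
    · intro n; exact map_intCast σ n
  have hLt : LL (algebraMap ℚ κ α / (algebraMap ℚ κ qe' - algebraMap ℚ κ qe) +
      algebraMap ℚ κ β) := by
    have h1 := hLL _ (hv qe' hqe' (fun h => hne' (by rw [h])))
    rwa [map_add, map_div₀, map_sub] at h1
  obtain ⟨a, A₀, α₀, hTop, hSt, h0⟩ := hDat.base hC hLt (TT_val hC hne' hWe')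
  have hσn : ∀ n : ℕ, σ (2 ^ n) = 2 ^ n := by
    intro n
    rw [map_pow, map_ofNat]
  have hstep := fun (n : ℕ) (A : Fin 3 → M) (α : Fin 3 → κ) h =>
    step hC hTop hC.alg (W' := W') hφ hDat.hσ hσn hDat.φT n (A := A) (α := α) h
  choose! fA fα hf using hstep
  let seq : ℕ → (Fin 3 → M) × (Fin 3 → κ) := fun n =>
    Nat.rec (A₀, α₀) (fun n p => (fA n p.1 p.2, fα n p.1 p.2)) n
  have hseq : ∀ n, St x (algebraMap ℚ κ qe) φ W W'
      (TT κ x (algebraMap ℚ κ qe) (algebraMap ℚ κ α) (algebraMap ℚ κ β) : M) n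
      (seq n).1 (seq n).2 := by
    intro n
    induction n with
    | zero => exact hSt
    | succ n ih => exact (hf n _ _ ih).1
  have hrel := fun n => (hf n _ _ (hseq n)).2
  have hval : ∀ n k, Lim W' ((seq n).1 k) ((seq n).2 k) := fun n k => (hseq n).val k
  refine no_chain h6 hq hFro (fun n => (seq n).2) ?_ ?_ (fun n => (hrel n).1)
    (fun n => (hrel n).2.1) (fun n => (hrel n).2.2) h0 ?_
  · intro n
    have h1 := ((hval n 0).pow 2).sub ((hval n 1).pow 2)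
    rw [(hseq n).d01] at h1
    exact h1.unique (lim_const _)
  · intro n
    have h1 := ((hval n 0).pow 2).sub ((hval n 2).pow 2)
    rw [(hseq n).d02] at h1
    exact h1.unique (lim_const _)
  · intro n
    have h1 := hcon ((seq n).1 0 - algebraMap κ M ((seq n).2 0))
      (((hseq n).fe 0).sub (Fe.const _))
    rw [map_sub, (hseq n).fix 0, hSA.const] at h1
    have h2 : Lim W' ((seq n).1 0) (σ ((seq n).2 0)) := by
      have h3 := hval n 0
      unfold Lim Pos at h3 ⊢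
      rcases h3 with h3 | h3
      · left
        have h4 := congrArg φ h3
        rwa [map_sub, (hseq n).fix 0, hSA.const, map_zero] at h4
      · right; rwa [h1]
    rw [map_pow, h2.unique (hval n 0)]

end Pool.Agent.Zk90.TR
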