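import Pool.Agent.Y157.PS.Stm

/-!
# Limits at a place, and the halving step

(helper90, part B of `Zk12/TR`.)
-/

set_option autoImplicit false

open Polynomial FF Pool.Agent.Y157.PS

namespace Pool.Agent.Zk90.TR

section

variable {κ M : Type} [Field κ] [Field M] [Algebra κ M] {W : Place κ M}

/-- `f` vanishes at `W` -/
def Pos (W : Place κ M) (f : M) : Prop := f = 0 ∨ 0 < W.ord f

theorem Pos.reg {f : M} (h : Pos W f) : W.Reg f := h.imp id le_of_lt

theorem pos_zero : Pos W (0 : M) := Or.inl rfl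

theorem Pos.add {f g : M} (hf : Pos W f) (hg : Pos W g) : Pos W (f + g) := by
  by_cases h1 : f = 0
  · rwa [h1, zero_add]
  by_cases h2 : g = 0
  · rwa [h2, add_zero]
  by_cases h3 : f + g = 0
  · exact Or.inl h3
  · have a1 := hf.resolve_left h1
    have a2 := hg.resolve_left h2
    exact Or.inr (lt_of_lt_of_le (lt_min a1 a2) (W.ord_add h1 h2 h3))

theorem Pos.neg {f : M} (hf : Pos W f) : Pos W (-f) := by
  rcases hf with rfl | hf
  · left; simp
  · right; rwa [W.ord_neg]

theorem Pos.sub {f g : M} (hf : Pos W f) (hg : Pos W g) : Pos W (f - g) := by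
  rw [sub_eq_add_neg]; exact hf.add hg.neg

theorem Pos.mul_reg {f g : M} (hf : Pos W f) (hg : W.Reg g) : Pos W (f * g) := by
  by_cases h1 : f = 0
  · left; rw [h1, zero_mul]
  by_cases h2 : g = 0
  · left; rw [h2, mul_zero]
  right
  rw [W.ord_mul h1 h2]
  have a1 := hf.resolve_left h1
  have a2 := (W.reg_iff h2).1 hg
  omega

theorem Pos.reg_mul {f g : M} (hf : Pos W f) (hg : W.Reg g) : Pos W (g * f) := by
  rw [mul_comm]; exact hf.mul_reg hg

theorem pos_const {c : κ} (h : Pos W (algebraMap κ M c)) : c = 0 := by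
  by_contra hc
  rcases h with h | h
  · exact hc ((map_eq_zero_iff _ (algebraMap κ M).injective).1 h)
  · rw [W.ord_const hc] at h; exact lt_irrefl _ h

theorem pos_of_mul {f g : M} (h : Pos W (f * g)) : Pos W f ∨ Pos W g := by
  by_cases h1 : f = 0
  · left; left; exact h1
  by_cases h2 : g = 0
  · right; left; exact h2
  have h3 := h.resolve_left (mul_ne_zero h1 h2)
  rw [W.ord_mul h1 h2] at h3
  by_cases h4 : 0 < W.ord f
  · left; right; exact h4
  · right; right; omega

/-- `f` has the value `c` at `W` -/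
def Lim (W : Place κ M) (f : M) (c : κ) : Prop := Pos W (f - algebraMap κ M c)

theorem Lim.reg {f : M} {c : κ} (h : Lim W f c) : W.Reg f := by
  have h1 : f = (f - algebraMap κ M c) + algebraMap κ M c := by ring
  rw [h1]
  exact W.reg_add (Pos.reg h) (W.reg_const c)

theorem lim_const (c : κ) : Lim W (algebraMap κ M c) c := by
  left; rw [sub_self]

theorem Lim.add {f g : M} {a b : κ} (hf : Lim W f a) (hg : Lim W g b) :
    Lim W (f + g) (a + b) := by
  have h := Pos.add hf hg
  unfold Lim
  rwa [show f + g - algebraMap κ M (a + b) =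
    (f - algebraMap κ M a) + (g - algebraMap κ M b) by rw [map_add]; ring]

theorem Lim.neg {f : M} {a : κ} (hf : Lim W f a) : Lim W (-f) (-a) := by
  have h := Pos.neg hf
  unfold Lim
  rwa [show -f - algebraMap κ M (-a) = -(f - algebraMap κ M a) by rw [map_neg]; ring]

theorem Lim.sub {f g : M} {a b : κ} (hf : Lim W f a) (hg : Lim W g b) :
    Lim W (f - g) (a - b) := by
  rw [sub_eq_add_neg, sub_eq_add_neg]; exact hf.add hg.neg

theorem Lim.mul {f g : M} {a b : κ} (hf : Lim W f a) (hg : Lim W g b) :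
    Lim W (f * g) (a * b) := by
  have h1 := Pos.mul_reg hf hg.reg
  have h2 := Pos.reg_mul hg (W.reg_const a)
  have h := h1.add h2
  unfold Lim
  rwa [show f * g - algebraMap κ M (a * b) =
    (f - algebraMap κ M a) * g + algebraMap κ M a * (g - algebraMap κ M b) by
      rw [map_mul]; ring]

theorem Lim.pow {f : M} {a : κ} (hf : Lim W f a) (n : ℕ) : Lim W (f ^ n) (a ^ n) := by
  induction n with
  | zero => rw [pow_zero, pow_zero]; have := lim_const (W := W) (1 : κ); rwa [map_one] at this
  | succ n ih => rw [pow_succ, pow_succ]; exact ih.mul hf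

theorem Lim.unique {f : M} {a b : κ} (h : Lim W f a) (h' : Lim W f b) : a = b := by
  have h1 := h'.sub h
  rw [sub_self] at h1
  unfold Lim at h1
  rw [zero_sub, ← map_neg] at h1
  have := pos_const h1
  rw [neg_eq_zero, sub_eq_zero] at this
  exact this.symm

theorem Lim.congr {f : M} {a b : κ} (h : Lim W f a) (hab : a = b) : Lim W f b := hab ▸ h

/-- square roots -/
theorem lim_sqrt {f : M} {c : κ} (h : Lim W (f ^ 2) (c ^ 2)) : Lim W f c ∨ Lim W f (-c) := by
  unfold Lim at h ⊢
  rw [map_pow, show f ^ 2 - algebraMap κ M c ^ 2 =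
    (f - algebraMap κ M c) * (f - algebraMap κ M (-c)) by rw [map_neg]; ring] at h
  exact pos_of_mul h

theorem lim_sqrt' [IsAlgClosed κ] {f : M} {c : κ} (h : Lim W (f ^ 2) c) :
    ∃ d : κ, d ^ 2 = c ∧ Lim W f d := by
  obtain ⟨d, hd⟩ := IsAlgClosed.exists_pow_nat_eq c (n := 2) (by norm_num)
  rw [← hd] at h
  rcases lim_sqrt h with h | h
  · exact ⟨d, hd, h⟩
  · exact ⟨-d, by rw [neg_sq, hd], h⟩

/-- semilinear automorphisms which fix the place -/
theorem Lim.map {f : M} {c : κ} (h : Lim W f c) {φ : M ≃+* M} (hφ : Fixes W φ) {σ : κ → κ}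
    (hσ : ∀ c, φ (algebraMap κ M c) = algebraMap κ M (σ c)) : Lim W (φ f) (σ c) := by
  unfold Lim Pos at h ⊢
  rw [← hσ, ← map_sub, hφ, map_eq_zero_iff _ φ.injective]
  exact h

/-- the order of a sum `a + b`, if `a ^ 2 - b ^ 2` is a nonzero constant -/
theorem ord_sum [CharZero κ] {a b : M} {c : κ} (hc : c ≠ 0)
    (h : a ^ 2 - b ^ 2 = algebraMap κ M c) :
    a + b ≠ 0 ∧ ((0 ≤ W.ord a ∧ 0 ≤ W.ord b ∧ W.ord (a + b) = 0) ∨
      (W.ord a < 0 ∧ W.ord b = W.ord a ∧
        (W.ord (a + b) = W.ord a ∨ W.ord (a + b) = -W.ord a))) := by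
  have hcM : algebraMap κ M c ≠ 0 := by
    rwa [Ne, map_eq_zero_iff _ (algebraMap κ M).injective]
  have hprod : (a + b) * (a - b) = algebraMap κ M c := by rw [← h]; ring
  have hs : a + b ≠ 0 := by
    intro h0; rw [h0, zero_mul] at hprod; exact hcM hprod.symm
  have hd : a - b ≠ 0 := by
    intro h0; rw [h0, mul_zero] at hprod; exact hcM hprod.symm
  have hsum : W.ord (a + b) + W.ord (a - b) = 0 := by
    rw [← W.ord_mul hs hd, hprod, W.ord_const hc]
  have h2 : algebraMap κ M 2 ≠ 0 := by
    rw [Ne, map_eq_zero_iff _ (algebraMap κ M).injective]; exact two_ne_zero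
  have h2' : (2 : M) = algebraMap κ M 2 := by rw [map_ofNat]
  refine ⟨hs, ?_⟩
  have o2 : ∀ z : M, z ≠ 0 → W.ord (algebraMap κ M 2 * z) = W.ord z := fun z hz => by
    rw [W.ord_mul h2 hz, W.ord_const two_ne_zero, zero_add]
  have ea : algebraMap κ M 2 * a = (a + b) + (a - b) := by rw [← h2']; ring
  have eb : algebraMap κ M 2 * b = (a + b) - (a - b) := by rw [← h2']; ring
  rcases lt_trichotomy (W.ord (a + b)) (W.ord (a - b)) with h3 | h3 | h3
  · -- the sum has a pole
    have h4 := W.ord_add_eq hs hd h3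
    have h5 := W.ord_add_eq (f := a + b) (g := -(a - b)) hs (neg_ne_zero.2 hd)
      (by rw [W.ord_neg]; exact h3)
    have ha0 : a ≠ 0 := by
      rintro rfl; rw [mul_zero] at ea; exact h4.1 ea.symm
    have hb0 : b ≠ 0 := by
      rintro rfl; rw [mul_zero] at eb
      exact h5.1 (by rw [← sub_eq_add_neg]; exact eb.symm)
    have h6 : W.ord a = W.ord (a + b) := by
      rw [← o2 a ha0, ea, h4.2]
    have h7 : W.ord b = W.ord (a + b) := by
      rw [← o2 b hb0, eb, sub_eq_add_neg, h5.2]
    right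
    refine ⟨by omega, by omega, Or.inl (by omega)⟩
  · -- both are units
    have h8 : W.ord (a + b) = 0 := by omega
    have h9 : W.ord (a - b) = 0 := by omega
    left
    refine ⟨?_, ?_, h8⟩
    · by_cases ha0 : a = 0
      · rw [ha0, W.ord_zero]
      · rw [← o2 a ha0, ea]
        have := W.ord_add hs hd (by rw [← ea]; exact mul_ne_zero h2 ha0)
        rw [h8, h9, min_self] at this
        exact this
    · by_cases hb0 : b = 0
      · rw [hb0, W.ord_zero]
      · rw [← o2 b hb0, eb]
        have := W.ord_sub hs hd (by rw [← eb]; exact mul_ne_zero h2 hb0)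
        rw [h8, h9, min_self] at this
        exact this
  · have h4 := W.ord_add_eq (f := a - b) (g := a + b) hd hs h3
    have h5 := W.ord_add_eq (f := -(a - b)) (g := a + b) (neg_ne_zero.2 hd) hs
      (by rw [W.ord_neg]; exact h3)
    have ha0 : a ≠ 0 := by
      rintro rfl; rw [mul_zero] at ea; exact h4.1 (by rw [add_comm]; exact ea.symm)
    have hb0 : b ≠ 0 := by
      rintro rfl; rw [mul_zero] at eb
      exact h5.1 (by rw [add_comm, ← sub_eq_add_neg]; exact eb.symm)
    have h6 : W.ord a = W.ord (a - b) := by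
      rw [← o2 a ha0, ea, add_comm, h4.2]
    have h7 : W.ord b = W.ord (a - b) := by
      rw [← o2 b hb0, eb, sub_eq_add_neg, add_comm, h5.2, W.ord_neg]
    right
    refine ⟨by omega, by omega, Or.inr (by omega)⟩

end

end Pool.Agent.Zk90.TR
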