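import Pool.Agent.Zk90.TR.Nf1
import Pool.Agent.Y157.PS.Tools
import Pool.Agent.Y536.PS.STAB

/-!
# The halving step

(helper90, part B of `Zk12/TR`.)
-/

set_option autoImplicit false

open Polynomial FF Pool.Agent.Y157.PS

namespace Pool.Agent.Zk90.TR

section

variable {κ R M : Type} [Field κ] [Field R] [Field M] [Algebra κ R] [Algebra R M] [Algebra κ M]
  [IsScalarTower κ R M]

theorem gal_const (c : M ≃ₐ[R] M) (b : κ) : c (algebraMap κ M b) = algebraMap κ M b := by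
  rw [IsScalarTower.algebraMap_apply κ R M, c.commutes]

/-- `z` is fixed by all inertia groups above `e` -/
def Fe (κ : Type) {R M : Type} [Field κ] [Field R] [Field M] [Algebra κ R] [Algebra R M]
    [Algebra κ M] (x : R) (e : κ) (z : M) : Prop :=
  ∀ (W₁ : Place κ M) (c : M ≃ₐ[R] M), 0 < W₁.ord (algebraMap R M x - algebraMap κ M e) →
    Fixes W₁ c → c z = z

variable {x : R} {e : κ}

omit [IsScalarTower κ R M] in
theorem Fe.add {z w : M} (hz : Fe κ x e z) (hw : Fe κ x e w) : Fe κ x e (z + w) :=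
  fun W c h1 h2 => by rw [map_add, hz W c h1 h2, hw W c h1 h2]

omit [IsScalarTower κ R M] in
theorem Fe.mul {z w : M} (hz : Fe κ x e z) (hw : Fe κ x e w) : Fe κ x e (z * w) :=
  fun W c h1 h2 => by rw [map_mul, hz W c h1 h2, hw W c h1 h2]

theorem Fe.const (b : κ) : Fe κ x e (algebraMap κ M b) := fun _ c _ _ => gal_const c b

omit [IsScalarTower κ R M] in
theorem Fe.pow {z : M} (hz : Fe κ x e z) (n : ℕ) : Fe κ x e (z ^ n) :=
  fun W c h1 h2 => by rw [map_pow, hz W c h1 h2]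

omit [IsScalarTower κ R M] in
theorem Fe.neg {z : M} (hz : Fe κ x e z) : Fe κ x e (-z) :=
  fun W c h1 h2 => by rw [map_neg, hz W c h1 h2]

omit [IsScalarTower κ R M] in
theorem Fe.sub {z w : M} (hz : Fe κ x e z) (hw : Fe κ x e w) : Fe κ x e (z - w) :=
  fun W c h1 h2 => by rw [map_sub, hz W c h1 h2, hw W c h1 h2]

/-- the data above `e`: `T` is a function with `ord T = -2` and `a ^ 2 = T - t`, `ord a = -1` -/
structure Top (x : R) (e : κ) (T a : M) : Prop where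
  T0 : T ≠ 0
  a0 : a ≠ 0
  fixT : ∀ c : M ≃ₐ[R] M, c T = T
  ordT : ∀ W₁ : Place κ M, 0 < W₁.ord (algebraMap R M x - algebraMap κ M e) → W₁.ord T = -2
  orda : ∀ W₁ : Place κ M, 0 < W₁.ord (algebraMap R M x - algebraMap κ M e) → W₁.ord a = -1
  sq : ∀ c : M ≃ₐ[R] M, c a = a ∨ c a = -a

/-- elements of even order with square fixed by inertia -/
theorem fe_of_sq [IsAlgClosed κ] {T a : M} (hT : Top x e T a)
    (halg : Algebra.IsAlgebraic (IntermediateField.adjoin κ {algebraMap R M x}) M)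
    {z : M} (hz0 : z ≠ 0) (hz : Fe κ x e (z ^ 2))
    (hev : ∀ W₁ : Place κ M, 0 < W₁.ord (algebraMap R M x - algebraMap κ M e) →
      (2 : ℤ) ∣ W₁.ord z) : Fe κ x e z := by
  intro W c hW hc
  have h1 := hz W c hW hc
  rw [map_pow, sq_eq_sq_iff_eq_or_eq_neg] at h1
  rcases h1 with h1 | h1
  · exact h1
  obtain ⟨j, hj⟩ := hev W hW
  let γ : M ≃ₐ[κ] M := AlgEquiv.restrictScalars κ c
  have hγ : ∀ w, γ w = c w := fun w => rfl
  have hstab : ∀ π : M, W.ord π = 1 → c π = π → c z = z := by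
    intro π hπ hcπ
    have h2 := Pool.Agent.Y536.PS.stab κ M (algebraMap R M x) halg W γ (fun w => by
      rw [hγ]; exact hc w) π hπ (by rw [hγ]; exact hcπ)
    rw [← hγ, h2]
    rfl
  rcases hT.sq c with h2 | h2
  · refine hstab a⁻¹ ?_ ?_
    · rw [W.ord_inv, hT.orda W hW]; norm_num
    · rw [map_inv₀, h2]
  · refine hstab (z * a * T ^ (j - 1)) ?_ ?_
    · rw [W.ord_mul (mul_ne_zero hz0 hT.a0) (zpow_ne_zero _ hT.T0), W.ord_mul hz0 hT.a0,
        W.ord_zpow, hT.orda W hW, hT.ordT W hW, hj]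
      ring
    · rw [map_mul, map_mul, map_zpow₀, hT.fixT, h1, h2]
      ring

/-- the state of the chain -/
structure St (x : R) (e : κ) (φ : M ≃+* M) (W W' : Place κ M) (T : M) (n : ℕ) (A : Fin 3 → M)
    (a : Fin 3 → κ) : Prop where
  d01 : A 0 ^ 2 - A 1 ^ 2 = algebraMap κ M (-3)
  d02 : A 0 ^ 2 - A 2 ^ 2 = algebraMap κ M 1
  lim : ∀ k, Lim W (A k / T) (2 ^ n)
  fe : ∀ k, Fe κ x e (A k)
  ev : ∀ W₁ : Place κ M, 0 < W₁.ord (algebraMap R M x - algebraMap κ M e) →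
    ∀ k, (2 : ℤ) ∣ W₁.ord (A k)
  fix : ∀ k, φ (A k) = A k
  val : ∀ k, Lim W' (A k) (a k)

variable {B : Finset κ} {Y : M}

/-- fixed by `φ` up to sign, with a rational nonzero leading coefficient -/
theorem fix_of_lim [CharZero κ] {φ : M ≃+* M} {σ : κ → κ} {W : Place κ M} (hW : Fixes W φ)
    (hσ : ∀ c, φ (algebraMap κ M c) = algebraMap κ M (σ c)) {T s : M} (hT : φ T = T) {c : κ}
    (hc : c ≠ 0) (hσc : σ c = c) (hl : Lim W (s / T) c) (hs : φ (s ^ 2) = s ^ 2) : φ s = s := by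
  rw [map_pow, sq_eq_sq_iff_eq_or_eq_neg] at hs
  rcases hs with hs | hs
  · exact hs
  exfalso
  have h1 := hl.map hW hσ
  rw [map_div₀, hs, hT, hσc] at h1
  have h2 := hl.neg
  rw [← neg_div] at h2
  have h3 := h1.unique h2
  have h4 : (2 : κ) * c = 0 := by linear_combination h3
  exact hc ((mul_eq_zero.1 h4).resolve_left two_ne_zero)

/-- one coordinate of the halving step -/
theorem step1 [IsAlgClosed κ] [CharZero κ] (hC : Cov 2 κ R M x B Y) {T a : M} (hT : Top x e T a)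
    (halg : Algebra.IsAlgebraic (IntermediateField.adjoin κ {algebraMap R M x}) M)
    {φ : M ≃+* M} {σ : κ → κ} {W : Place κ M} (W' : Place κ M) (hW : Fixes W φ)
    (hσ : ∀ c, φ (algebraMap κ M c) = algebraMap κ M (σ c)) (hσn : ∀ n : ℕ, σ (2 ^ n) = 2 ^ n)
    (hφT : φ T = T) (n : ℕ) {p q r : M} {p' q' r' : κ} {c₁ c₂ : κ} (hc₁ : c₁ ≠ 0) (hc₂ : c₂ ≠ 0)
    (h₁ : p ^ 2 - q ^ 2 = algebraMap κ M c₁) (h₂ : p ^ 2 - r ^ 2 = algebraMap κ M c₂)
    (lp : Lim W (p / T) (2 ^ n)) (lq : Lim W (q / T) (2 ^ n)) (lr : Lim W (r / T) (2 ^ n))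
    (fp : Fe κ x e p) (fq : Fe κ x e q) (fr : Fe κ x e r)
    (ep : ∀ W₁ : Place κ M, 0 < W₁.ord (algebraMap R M x - algebraMap κ M e) →
      (2 : ℤ) ∣ W₁.ord p)
    (xp : φ p = p) (xq : φ q = q) (xr : φ r = r)
    (vp : Lim W' p p') (vq : Lim W' q q') (vr : Lim W' r r') :
    ∃ (s : M) (s' : κ), s ^ 2 = (p + q) * (p + r) ∧ s' ^ 2 = (p' + q') * (p' + r') ∧
      Lim W (s / T) (2 ^ (n + 1)) ∧ Fe κ x e s ∧
      (∀ W₁ : Place κ M, 0 < W₁.ord (algebraMap R M x - algebraMap κ M e) →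
        (2 : ℤ) ∣ W₁.ord s) ∧ φ s = s ∧ Lim W' s s' := by
  have o1 : ∀ W₁ : Place κ M, _ := fun W₁ => ord_sum (W := W₁) hc₁ h₁
  have o2 : ∀ W₁ : Place κ M, _ := fun W₁ => ord_sum (W := W₁) hc₂ h₂
  have hpq : p + q ≠ 0 := (o1 W).1
  have hpr : p + r ≠ 0 := (o2 W).1
  have hne : (p + q) * (p + r) ≠ 0 := mul_ne_zero hpq hpr
  have hord : ∀ W₁ : Place κ M, W₁.ord ((p + q) * (p + r)) = 0 ∨
      W₁.ord ((p + q) * (p + r)) = 2 * W₁.ord p ∨
      W₁.ord ((p + q) * (p + r)) = -(2 * W₁.ord p) := by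
    intro W₁
    rw [W₁.ord_mul hpq hpr]
    rcases (o1 W₁).2 with ⟨g1, g2, g3⟩ | ⟨g1, g2, g3⟩ <;>
      rcases (o2 W₁).2 with ⟨k1, k2, k3⟩ | ⟨k1, k2, k3⟩ <;> omega
  obtain ⟨s₀, hs₀⟩ := hC.root _ hne (fun W₁ => by
    rcases hord W₁ with h | h | h
    · rw [h]; exact dvd_zero _
    · rw [h]; exact Dvd.intro _ rfl
    · rw [h]; exact (Dvd.intro _ rfl).neg_right)
  -- the sign
  have hlim : Lim W ((s₀ / T) ^ 2) ((2 ^ (n + 1)) ^ 2) := by
    have h3 := (lp.add lq).mul (lp.add lr)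
    have e1 : (s₀ / T) ^ 2 = (p / T + q / T) * (p / T + r / T) := by
      rw [div_pow, hs₀, ← add_div, ← add_div, div_mul_div_comm, ← sq]
    rw [e1]
    exact h3.congr (by ring)
  obtain ⟨s, hs, hsl⟩ : ∃ s : M, s ^ 2 = (p + q) * (p + r) ∧ Lim W (s / T) (2 ^ (n + 1)) := by
    rcases lim_sqrt hlim with h | h
    · exact ⟨s₀, hs₀, h⟩
    · refine ⟨-s₀, by rw [neg_sq, hs₀], ?_⟩
      have := h.neg
      rwa [neg_neg, ← neg_div] at this
  have hs0 : s ≠ 0 := by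
    rintro rfl
    rw [zero_pow two_ne_zero] at hs
    exact hne hs.symm
  have hsev : ∀ W₁ : Place κ M, 0 < W₁.ord (algebraMap R M x - algebraMap κ M e) →
      (2 : ℤ) ∣ W₁.ord s := by
    intro W₁ h1
    obtain ⟨j, hj⟩ := ep W₁ h1
    have h2 := W₁.ord_pow s 2
    rw [hs] at h2
    push_cast at h2
    rcases hord W₁ with h | h | h
    · exact ⟨0, by omega⟩
    · exact ⟨j, by omega⟩
    · exact ⟨-j, by omega⟩
  have hfe2 : Fe κ x e (s ^ 2) := by rw [hs]; exact (fp.add fq).mul (fp.add fr)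
  have hfix : φ s = s := by
    refine fix_of_lim hW hσ hφT (pow_ne_zero (n + 1) two_ne_zero) (hσn (n + 1)) hsl ?_
    rw [hs, map_mul, map_add, map_add, xp, xq, xr]
  have hval : Lim W' (s ^ 2) ((p' + q') * (p' + r')) := by
    rw [hs]; exact (vp.add vq).mul (vp.add vr)
  obtain ⟨s', hs', hv⟩ := lim_sqrt' hval
  exact ⟨s, s', hs, hs', hsl, fe_of_sq hT halg hs0 hfe2 hsev, hsev, hfix, hv⟩

/-- the halving step -/
theorem step [IsAlgClosed κ] [CharZero κ] (hC : Cov 2 κ R M x B Y) {T a : M} (hT : Top x e T a)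
    (halg : Algebra.IsAlgebraic (IntermediateField.adjoin κ {algebraMap R M x}) M)
    {φ : M ≃+* M} {σ : κ → κ} {W W' : Place κ M} (hW : Fixes W φ)
    (hσ : ∀ c, φ (algebraMap κ M c) = algebraMap κ M (σ c)) (hσn : ∀ n : ℕ, σ (2 ^ n) = 2 ^ n)
    (hφT : φ T = T) (n : ℕ) {A : Fin 3 → M} {α : Fin 3 → κ} (h : St x e φ W W' T n A α) :
    ∃ (A' : Fin 3 → M) (α' : Fin 3 → κ), St x e φ W W' T (n + 1) A' α' ∧
      α' 0 ^ 2 = (α 0 + α 1) * (α 0 + α 2) ∧ α' 1 ^ 2 = (α 1 + α 0) * (α 1 + α 2) ∧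
      α' 2 ^ 2 = (α 2 + α 0) * (α 2 + α 1) := by
  have d10 : A 1 ^ 2 - A 0 ^ 2 = algebraMap κ M 3 := by
    have := h.d01; rw [map_neg] at this; linear_combination -this
  have d12 : A 1 ^ 2 - A 2 ^ 2 = algebraMap κ M 4 := by
    have h1 := h.d01
    have h2 := h.d02
    rw [map_neg] at h1
    have e4 : algebraMap κ M 4 = algebraMap κ M 3 + algebraMap κ M 1 := by
      rw [← map_add]; norm_num
    rw [e4]; linear_combination h2 - h1
  have d20 : A 2 ^ 2 - A 0 ^ 2 = algebraMap κ M (-1) := by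
    have := h.d02; rw [map_neg]; linear_combination -this
  have d21 : A 2 ^ 2 - A 1 ^ 2 = algebraMap κ M (-4) := by
    rw [map_neg]; linear_combination -d12
  obtain ⟨s0, t0, a1, a2, a3, a4, a5, a6, a7⟩ := step1 hC hT halg W' hW hσ hσn hφT n
    (neg_ne_zero.2 three_ne_zero) one_ne_zero h.d01 h.d02 (h.lim 0) (h.lim 1) (h.lim 2) (h.fe 0)
    (h.fe 1) (h.fe 2) (fun W₁ h1 => h.ev W₁ h1 0) (h.fix 0) (h.fix 1) (h.fix 2) (h.val 0)
    (h.val 1) (h.val 2)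
  obtain ⟨s1, t1, b1, b2, b3, b4, b5, b6, b7⟩ := step1 hC hT halg W' hW hσ hσn hφT n
    three_ne_zero (by norm_num : (4 : κ) ≠ 0) d10 d12 (h.lim 1) (h.lim 0) (h.lim 2) (h.fe 1)
    (h.fe 0) (h.fe 2) (fun W₁ h1 => h.ev W₁ h1 1) (h.fix 1) (h.fix 0) (h.fix 2) (h.val 1)
    (h.val 0) (h.val 2)
  obtain ⟨s2, t2, c1, c2, c3, c4, c5, c6, c7⟩ := step1 hC hT halg W' hW hσ hσn hφT n
    (neg_ne_zero.2 one_ne_zero) (by norm_num : (-4 : κ) ≠ 0) d20 d21 (h.lim 2) (h.lim 0)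
    (h.lim 1) (h.fe 2) (h.fe 0) (h.fe 1) (fun W₁ h1 => h.ev W₁ h1 2) (h.fix 2) (h.fix 0)
    (h.fix 1) (h.val 2) (h.val 0) (h.val 1)
  refine ⟨![s0, s1, s2], ![t0, t1, t2], ⟨?_, ?_, ?_, ?_, ?_, ?_, ?_⟩, a2, b2, c2⟩
  · change s0 ^ 2 - s1 ^ 2 = _
    rw [a1, b1, ← h.d01]; ring
  · change s0 ^ 2 - s2 ^ 2 = _
    rw [a1, c1, ← h.d02]; ring
  · intro k; fin_cases k
    · exact a3
    · exact b3
    · exact c3
  · intro k; fin_cases k
    · exact a4
    · exact b4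
    · exact c4
  · intro W₁ h1 k; fin_cases k
    · exact a5 W₁ h1
    · exact b5 W₁ h1
    · exact c5 W₁ h1
  · intro k; fin_cases k
    · exact a6
    · exact b6
    · exact c6
  · intro k; fin_cases k
    · exact a7
    · exact b7
    · exact c7

end

end Pool.Agent.Zk90.TR
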