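import Pool.Agent.Zk90.TR.Nf1
import Pool.Agent.Y157.PS.Tools

/-!
# The values of the chain at the other branch points

(helper90, part B of `Zk12/TR`.)
-/

set_option autoImplicit false

open Polynomial FF Pool.Agent.Y157.PS

namespace Pool.Agent.Zk90.TR

/-- the arithmetic in the residue field -/
theorem no_seq {k : Type} [Field k] (h6 : (6 : k) ≠ 0) (q : ℕ) (hq : 1 < q) (r : ℕ → k)
    (hr : ∀ n, 1 ≤ n → r n ≠ 0 ∧ r n + 3 ≠ 0 ∧ r n - 1 ≠ 0)
    (hd : ∀ n, r n * (4 * (r (n + 1) * (r (n + 1) + 3) * (r (n + 1) - 1))) =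
      (r (n + 1) ^ 2 + 3) ^ 2)
    (h0 : r 0 = 0 ∨ r 0 = -3 ∨ r 0 = -1 ∨ r 0 = 3) (hrq : ∀ n, r n ^ q = r n) : False := by
  classical
  have h2 : (2 : k) ≠ 0 := by
    intro h; apply h6; linear_combination 3 * h
  have h3 : (3 : k) ≠ 0 := by
    intro h; apply h6; linear_combination 2 * h
  have hden : ∀ n, 1 ≤ n → (4 * (r n * (r n + 3) * (r n - 1))) ≠ 0 := by
    intro n hn
    obtain ⟨a1, a2, a3⟩ := hr n hn
    have h4 : (4 : k) ≠ 0 := by
      have : (4 : k) = 2 * 2 := by norm_num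
      rw [this]; exact mul_ne_zero h2 h2
    exact mul_ne_zero h4 (mul_ne_zero (mul_ne_zero a1 a2) a3)
  -- descent
  have hdesc : ∀ n m, r (n + 1) = r (m + 1) → r n = r m := by
    intro n m h
    have e1 := hd n
    have e2 := hd m
    rw [h] at e1
    exact mul_right_cancel₀ (hden (m + 1) (by omega)) (e1.trans e2.symm)
  have hdesc' : ∀ j n m, r (n + j) = r (m + j) → r n = r m := by
    intro j
    induction j with
    | zero => intro n m h; exact h
    | succ j ih => intro n m h; exact ih n m (hdesc _ _ h)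
  -- pigeonhole
  set P : k[X] := X ^ q - X with hP
  have hP0 : P ≠ 0 := by
    intro h
    have h1 := congrArg (fun p => p.coeff q) h
    simp only [hP, coeff_sub, coeff_X_pow, if_true, coeff_zero] at h1
    rw [coeff_X_of_ne_one (by omega : q ≠ 1), sub_zero] at h1
    exact one_ne_zero h1
  have hroot : ∀ n, r n ∈ P.roots.toFinset := by
    intro n
    rw [Multiset.mem_toFinset, mem_roots hP0, IsRoot.def, hP, eval_sub, eval_pow, eval_X, hrq,
      sub_self]
  obtain ⟨a, b, hab, hrab⟩ : ∃ a b : ℕ, a < b ∧ r a = r b := by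
    by_contra hcon
    push Not at hcon
    have hinj : Function.Injective r := by
      intro a b h
      rcases lt_trichotomy a b with h1 | h1 | h1
      · exact absurd h (hcon a b h1)
      · exact h1
      · exact absurd h.symm (hcon b a h1)
    have hfin : (Set.range r).Finite := P.roots.toFinset.finite_toSet.subset (by
      rintro _ ⟨n, rfl⟩; exact hroot n)
    exact Set.infinite_range_of_injective hinj hfin
  obtain ⟨m, rfl⟩ : ∃ m, b = a + (m + 1) := ⟨b - a - 1, by omega⟩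
  have hrm : r 0 = r (m + 1) := by
    refine hdesc' a 0 (m + 1) ?_
    rw [zero_add, show m + 1 + a = a + (m + 1) by omega]
    exact hrab
  obtain ⟨b1, b2, b3⟩ := hr (m + 1) (by omega)
  rw [← hrm] at b1 b2 b3
  have key : r m = 1 → False := by
    intro h
    rcases Nat.eq_zero_or_pos m with rfl | hm
    · rcases h0 with h0 | h0 | h0 | h0 <;> rw [h] at h0
      · exact one_ne_zero h0
      · exact absurd (by linear_combination h0 : (4 : k) = 0) (by
          have : (4 : k) = 2 * 2 := by norm_num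
          rw [this]; exact mul_ne_zero h2 h2)
      · exact h2 (by linear_combination h0)
      · exact h2 (by linear_combination -h0)
    · exact (hr m hm).2.2 (by rw [h, sub_self])
  have hdm := hd m
  rw [← hrm] at hdm
  rcases h0 with h0 | h0 | h0 | h0
  · exact b1 h0
  · exact b2 (by rw [h0]; ring)
  · apply key
    rw [h0] at hdm
    have h16 : (16 : k) ≠ 0 := by
      have : (16 : k) = 2 * 2 * (2 * 2) := by norm_num
      rw [this]; exact mul_ne_zero (mul_ne_zero h2 h2) (mul_ne_zero h2 h2)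
    apply mul_left_cancel₀ h16
    linear_combination hdm
  · apply key
    rw [h0] at hdm
    have h144 : (144 : k) ≠ 0 := by
      have : (144 : k) = 2 * 2 * (2 * 2) * (3 * 3) := by norm_num
      rw [this]
      exact mul_ne_zero (mul_ne_zero (mul_ne_zero h2 h2) (mul_ne_zero h2 h2)) (mul_ne_zero h3 h3)
    apply mul_left_cancel₀ h144
    linear_combination hdm

/-- there is no chain of values -/
theorem no_chain {κ : Type} [Field κ] [Algebra ℚ κ] {V : ValuationSubring κ}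
    (h6 : IsU V (6 : κ)) {σ : κ ≃ₐ[ℚ] κ} {q : ℕ} (hq : 1 < q) (hσ : Fro V q σ)
    (α : ℕ → Fin 3 → κ)
    (d01 : ∀ n, α n 0 ^ 2 - α n 1 ^ 2 = -3) (d02 : ∀ n, α n 0 ^ 2 - α n 2 ^ 2 = 1)
    (s0 : ∀ n, α (n + 1) 0 ^ 2 = (α n 0 + α n 1) * (α n 0 + α n 2))
    (s1 : ∀ n, α (n + 1) 1 ^ 2 = (α n 1 + α n 0) * (α n 1 + α n 2))
    (s2 : ∀ n, α (n + 1) 2 ^ 2 = (α n 2 + α n 0) * (α n 2 + α n 1))
    (h0 : α 0 0 ^ 2 = 0 ∨ α 0 0 ^ 2 = -3 ∨ α 0 0 ^ 2 = -1 ∨ α 0 0 ^ 2 = 3)
    (hfix : ∀ n, σ (α n 0 ^ 2) = α n 0 ^ 2) : False := by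
  have hV : ∀ n : ℤ, (n : κ) ∈ V := fun n => intCast_mem V n
  have u2 : IsU V (2 : κ) := by
    refine ⟨fun h => h6.1 (by linear_combination 3 * h), by exact_mod_cast hV 2, ?_⟩
    have : (2 : κ)⁻¹ = 3 * (6 : κ)⁻¹ := by
      have h60 := h6.1
      have h20 : (2 : κ) ≠ 0 := fun h => h6.1 (by linear_combination 3 * h)
      field_simp; norm_num
    rw [this]
    exact V.mul_mem _ _ (by exact_mod_cast hV 3) h6.2.2
  have u3 : IsU V (3 : κ) := by
    refine ⟨fun h => h6.1 (by linear_combination 2 * h), by exact_mod_cast hV 3, ?_⟩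
    have : (3 : κ)⁻¹ = 2 * (6 : κ)⁻¹ := by
      have h60 := h6.1
      have h20 : (3 : κ) ≠ 0 := fun h => h6.1 (by linear_combination 2 * h)
      field_simp; norm_num
    rw [this]
    exact V.mul_mem _ _ (by exact_mod_cast hV 2) h6.2.2
  have u4 : IsU V (4 : κ) := by
    have := u2.mul u2
    rwa [show (2 : κ) * 2 = 4 by norm_num] at this
  have hneg : ∀ {z : κ}, IsU V z → IsU V (-z) := by
    rintro z ⟨a, b, c⟩
    exact ⟨neg_ne_zero.2 a, V.neg_mem _ b, by rw [inv_neg]; exact V.neg_mem _ c⟩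
  -- integrality
  have hsq : ∀ {z : κ}, z ^ 2 ∈ V → z ∈ V := by
    intro z hz
    rcases V.mem_or_inv_mem z with h | h
    · exact h
    · by_cases hz0 : z = 0
      · rw [hz0]; exact V.zero_mem
      have : z = z ^ 2 * z⁻¹ := by field_simp
      rw [this]; exact V.mul_mem _ _ hz h
  have hint0 : ∀ k, α 0 k ∈ V := by
    have e0 : α 0 0 ^ 2 ∈ V := by
      rcases h0 with h | h | h | h <;> rw [h]
      · exact V.zero_mem
      · exact_mod_cast hV (-3)
      · exact_mod_cast hV (-1)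
      · exact_mod_cast hV 3
    intro k
    fin_cases k
    · exact hsq e0
    · apply hsq
      have : α 0 1 ^ 2 = α 0 0 ^ 2 + 3 := by linear_combination -(d01 0)
      change α 0 1 ^ 2 ∈ V
      rw [this]; exact V.add_mem _ _ e0 (by exact_mod_cast hV 3)
    · apply hsq
      have : α 0 2 ^ 2 = α 0 0 ^ 2 - 1 := by linear_combination -(d02 0)
      change α 0 2 ^ 2 ∈ V
      rw [this, sub_eq_add_neg]
      exact V.add_mem _ _ e0 (V.neg_mem _ V.one_mem)
  -- units
  have hun : ∀ {a b c : κ}, a ∈ V → b ∈ V → a ^ 2 - b ^ 2 = c → IsU V c → IsU V (a + b) := by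
    intro a b c ha hb hab hc
    have h1 : (a + b) * (a - b) = c := by rw [← hab]; ring
    have hab0 : a + b ≠ 0 := by
      intro h; rw [h, zero_mul] at h1; exact hc.1 h1.symm
    refine ⟨hab0, V.add_mem _ _ ha hb, ?_⟩
    have : (a + b)⁻¹ = (a - b) * c⁻¹ := by
      rw [← h1, mul_inv, ← mul_assoc, mul_comm (a - b), mul_assoc, mul_inv_cancel₀, mul_one]
      intro h; rw [h, mul_zero] at h1; exact hc.1 h1.symm
    rw [this, sub_eq_add_neg]
    exact V.mul_mem _ _ (V.add_mem _ _ ha (V.neg_mem _ hb)) hc.2.2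
  have hsum : ∀ n, (∀ k, α n k ∈ V) → IsU V (α n 0 + α n 1) ∧ IsU V (α n 0 + α n 2) ∧
      IsU V (α n 1 + α n 2) := by
    intro n hn
    refine ⟨hun (hn 0) (hn 1) (d01 n) (hneg u3), hun (hn 0) (hn 2) (d02 n) isU_one,
      hun (hn 1) (hn 2) (c := 4) ?_ u4⟩
    linear_combination d02 n - d01 n
  have hint : ∀ n k, α n k ∈ V := by
    intro n
    induction n with
    | zero => exact hint0
    | succ n ih =>
      obtain ⟨g1, g2, g3⟩ := hsum n ih
      intro k
      apply hsq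
      fin_cases k
      · change α (n + 1) 0 ^ 2 ∈ V
        rw [s0]; exact (g1.mul g2).2.1
      · change α (n + 1) 1 ^ 2 ∈ V
        rw [s1, add_comm (α n 1)]; exact (g1.mul g3).2.1
      · change α (n + 1) 2 ^ 2 ∈ V
        rw [s2, add_comm (α n 2), add_comm (α n 2)]; exact (g2.mul g3).2.1
  have hunit : ∀ n, IsU V (α (n + 1) 0 ^ 2) ∧ IsU V (α (n + 1) 1 ^ 2) ∧
      IsU V (α (n + 1) 2 ^ 2) := by
    intro n
    obtain ⟨g1, g2, g3⟩ := hsum n (hint n)
    refine ⟨by rw [s0]; exact g1.mul g2, by rw [s1, add_comm (α n 1)]; exact g1.mul g3,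
      by rw [s2, add_comm (α n 2), add_comm (α n 2)]; exact g2.mul g3⟩
  have hw : ∀ n, α n 0 ^ 2 ∈ V := fun n => V.toSubring.pow_mem (hint n 0) 2
  -- the residue field
  let ρ : V →+* IsLocalRing.ResidueField V := IsLocalRing.residue V
  have hρ : ∀ z : V, ρ z = 0 ↔ (z : κ) ∈ V.nonunits := by
    intro z
    rw [IsLocalRing.residue_eq_zero_iff, ValuationSubring.coe_mem_nonunits_iff]
  have hρu : ∀ z : V, IsU V (z : κ) → ρ z ≠ 0 := fun z hz h => hz.not_nonunit ((hρ z).1 h)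
  let w : ℕ → V := fun n => ⟨α n 0 ^ 2, hw n⟩
  have hcast : ∀ m : ℕ, (((m : ℕ) : V) : κ) = (m : κ) := fun m => map_natCast V.subtype m
  have hρc : ∀ m : ℕ, ρ ((m : ℕ) : V) = (m : IsLocalRing.ResidueField V) := fun m =>
    map_natCast ρ m
  refine no_seq (k := IsLocalRing.ResidueField V) ?_ q hq (fun n => ρ (w n)) ?_ ?_ ?_ ?_
  · have h1 : ρ ((6 : ℕ) : V) ≠ 0 := hρu _ (by rw [hcast]; exact_mod_cast h6)
    rw [hρc] at h1
    exact_mod_cast h1
  · intro n hn
    obtain ⟨m, rfl⟩ : ∃ m, n = m + 1 := ⟨n - 1, by omega⟩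
    obtain ⟨g0, g1, g2⟩ := hunit m
    refine ⟨hρu _ g0, ?_, ?_⟩
    · have h1 : ρ (w (m + 1) + ((3 : ℕ) : V)) ≠ 0 := hρu _ (by
        have : ((w (m + 1) + ((3 : ℕ) : V) : V) : κ) = α (m + 1) 1 ^ 2 := by
          change α (m + 1) 0 ^ 2 + (((3 : ℕ) : V) : κ) = _
          rw [hcast]
          push_cast
          linear_combination d01 (m + 1)
        rw [this]; exact g1)
      rw [map_add, hρc] at h1
      exact_mod_cast h1
    · have h1 : ρ (w (m + 1) - 1) ≠ 0 := hρu _ (by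
        have : ((w (m + 1) - 1 : V) : κ) = α (m + 1) 2 ^ 2 := by
          change α (m + 1) 0 ^ 2 - 1 = _
          linear_combination d02 (m + 1)
        rw [this]; exact g2)
      rw [map_sub, map_one] at h1
      exact h1
  · intro n
    have h1 : w n * (((4 : ℕ) : V) * (w (n + 1) * (w (n + 1) + ((3 : ℕ) : V)) *
        (w (n + 1) - 1))) = (w (n + 1) ^ 2 + ((3 : ℕ) : V)) ^ 2 := by
      apply Subtype.ext
      change α n 0 ^ 2 * ((((4 : ℕ) : V) : κ) * (α (n + 1) 0 ^ 2 *
        (α (n + 1) 0 ^ 2 + (((3 : ℕ) : V) : κ)) * (α (n + 1) 0 ^ 2 - 1))) =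
          ((α (n + 1) 0 ^ 2) ^ 2 + (((3 : ℕ) : V) : κ)) ^ 2
      rw [hcast, hcast]
      push_cast
      have e1 : α (n + 1) 0 ^ 2 + 3 = α (n + 1) 1 ^ 2 := by linear_combination d01 (n + 1)
      have e2 : α (n + 1) 0 ^ 2 - 1 = α (n + 1) 2 ^ 2 := by linear_combination d02 (n + 1)
      rw [e1, e2, s0, s1, s2]
      have f1 := d01 n
      have f2 := d02 n
      have f3 : (3 : κ) = -((α n 0 ^ 2 - α n 1 ^ 2) * (α n 0 ^ 2 - α n 2 ^ 2)) := by
        rw [f1, f2]; ring
      rw [f3]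
      ring
    have h2 := congrArg ρ h1
    simp only [map_mul, map_add, map_sub, map_pow, map_one, hρc] at h2
    exact_mod_cast h2
  · change ρ (w 0) = 0 ∨ ρ (w 0) = -3 ∨ ρ (w 0) = -1 ∨ ρ (w 0) = 3
    have hc : ∀ c : V, α 0 0 ^ 2 = (c : κ) → ρ (w 0) = ρ c := fun c hc =>
      congrArg ρ (Subtype.ext hc)
    rcases h0 with h | h | h | h
    · left
      rw [hc 0 (by simpa using h), map_zero]
    · right; left
      rw [hc (-((3 : ℕ) : V)) (by
        change α 0 0 ^ 2 = -(((3 : ℕ) : V) : κ)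
        rw [hcast, h]; norm_num), map_neg, hρc]
      norm_num
    · right; right; left
      rw [hc (-1) (by simpa using h), map_neg, map_one]
    · right; right; right
      rw [hc ((3 : ℕ) : V) (by rw [hcast, h]; norm_num), hρc]
      norm_num
  · intro n
    have h1 := hσ.2 _ (hw n)
    rw [hfix] at h1
    have h2 : ρ (w n - w n ^ q) = 0 := (hρ _).2 h1
    rw [map_sub, map_pow, sub_eq_zero] at h2
    exact h2.symm

end Pool.Agent.Zk90.TR
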