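import Pool.Agent.Zk90.TR.Nf2
import Pool.Agent.Zk90.TR.Nf3
import Pool.Agent.Y157.PS.Loc

/-!
# The beginning of the chain

(helper90, part B of `Zk12/TR`.)
-/

set_option autoImplicit false

open Polynomial FF Pool.Agent.Y157.PS

namespace Pool.Agent.Zk90.TR

section

variable {κ M : Type} [Field κ] [Field M] [Algebra κ M] {W : Place κ M}

theorem Lim.ne_zero {f : M} {c : κ} (h : Lim W f c) (hc : c ≠ 0) : f ≠ 0 ∧ W.ord f = 0 := by
  have h0 : f ≠ 0 := by
    rintro rfl
    unfold Lim at h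
    rw [zero_sub, ← map_neg] at h
    exact hc (neg_eq_zero.1 (pos_const h))
  refine ⟨h0, ?_⟩
  have h1 := (W.reg_iff h0).1 h.reg
  by_contra h2
  have h3 : Pos W f := Or.inr (by omega)
  have h4 : Pos W (f - (f - algebraMap κ M c)) := h3.sub h
  rw [sub_sub_cancel] at h4
  exact hc (pos_const h4)

theorem Lim.inv {f : M} {c : κ} (h : Lim W f c) (hc : c ≠ 0) : Lim W f⁻¹ c⁻¹ := by
  obtain ⟨h0, h1⟩ := h.ne_zero hc
  have hcM : algebraMap κ M c ≠ 0 := by
    rwa [Ne, map_eq_zero_iff _ (algebraMap κ M).injective]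
  have h2 : Pos W (-(f - algebraMap κ M c) * (f⁻¹ * (algebraMap κ M c)⁻¹)) := by
    refine (Pos.neg h).mul_reg (W.reg_mul ?_ ?_)
    · rw [W.reg_iff (inv_ne_zero h0), W.ord_inv]; omega
    · rw [← map_inv₀]; exact W.reg_const _
  unfold Lim
  rw [map_inv₀]
  rwa [show -(f - algebraMap κ M c) * (f⁻¹ * (algebraMap κ M c)⁻¹) =
    f⁻¹ - (algebraMap κ M c)⁻¹ by field_simp; ring] at h2

end

section

variable {κ R M : Type} [Field κ] [IsAlgClosed κ] [CharZero κ] [Field R] [Field M] [Algebra κ R]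
  [Algebra R M] [Algebra κ M] [IsScalarTower κ R M] {x : R} {e : κ} {B : Finset κ} {Y : M}

/-- `x - b` is not zero -/
theorem sub_ne (hC : Cov 2 κ R M x B Y) (b : κ) :
    algebraMap R M x - algebraMap κ M b ≠ 0 := by
  intro h
  rw [sub_eq_zero, IsScalarTower.algebraMap_apply κ R M] at h
  have h1 := (algebraMap R M).injective h
  apply hC.rat.trans
  rw [h1]
  exact isAlgebraic_algebraMap b

/-- orders of `x - b` -/
theorem ord_even (hC : Cov 2 κ R M x B Y) (W : Place κ M) {b b' : κ} (hb : b ∈ B) (hb' : b' ∈ B) :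
    (2 : ℤ) ∣ W.ord ((algebraMap R M x - algebraMap κ M b) /
      (algebraMap R M x - algebraMap κ M b')) := by
  rw [W.ord_div (sub_ne hC b) (sub_ne hC b')]
  rcases hC.loc' W with ⟨e₁, he₁, h1, -⟩ | ⟨a, ha, h1⟩ | h1
  · have h2 : ∀ b ∈ B, (2 : ℤ) ∣ W.ord (algebraMap R M x - algebraMap κ M b) := by
      intro b hb
      by_cases h : b = e₁
      · rw [h, h1]; exact dvd_rfl
      · rw [ord_sub_const (a := e₁) (by rw [h1]; norm_num) (Ne.symm h)]; exact dvd_zero _
    exact (h2 b hb).sub (h2 b' hb')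
  · have h2 : ∀ b ∈ B, W.ord (algebraMap R M x - algebraMap κ M b) = 0 := by
      intro b hb
      exact ord_sub_const (a := a) (by rw [h1]; norm_num) (fun h => ha (h ▸ hb))
    rw [h2 b hb, h2 b' hb', sub_zero]; exact dvd_zero _
  · have hx0 : algebraMap R M x ≠ 0 := by
      intro h; rw [h, W.ord_zero] at h1; omega
    have h2 : ∀ b : κ, W.ord (algebraMap R M x - algebraMap κ M b) = -1 := by
      intro b
      by_cases hb : b = 0
      · rw [hb, map_zero, sub_zero, h1]
      · rw [sub_eq_add_neg, ← map_neg, (W.ord_add_eq hx0 (by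
          rw [Ne, map_eq_zero_iff _ (algebraMap κ M).injective]; exact neg_ne_zero.2 hb) (by
          rw [h1, W.ord_const (neg_ne_zero.2 hb)]; norm_num)).2, h1]
    rw [h2, h2, sub_self]; exact dvd_zero _

theorem ord_above (hC : Cov 2 κ R M x B Y) (W : Place κ M)
    (hW : 0 < W.ord (algebraMap R M x - algebraMap κ M e)) (he : e ∈ B) :
    W.ord (algebraMap R M x - algebraMap κ M e) = 2 := by
  rcases hC.loc' W with ⟨e₁, he₁, h1, -⟩ | ⟨a, ha, h1⟩ | h1
  · by_cases h : e = e₁
    · rw [h, h1]; rfl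
    · rw [ord_sub_const (a := e₁) (by rw [h1]; norm_num) (Ne.symm h)] at hW
      exact absurd hW (lt_irrefl _)
  · rw [ord_sub_const (a := a) (by rw [h1]; norm_num) (fun h => ha (h ▸ he))] at hW
    exact absurd hW (lt_irrefl _)
  · exfalso
    have h2 := reg_of_pos hW
    have hx0 : algebraMap R M x ≠ 0 := by
      intro h; rw [h, W.ord_zero] at h1; omega
    have := (W.reg_iff hx0).1 h2
    omega

/-- the coordinate `T` -/
noncomputable def TT (κ : Type) {R M : Type} [Field κ] [Field R] [Field M] [Algebra κ R]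
    [Algebra R M] [Algebra κ M] (x : R) (e α β : κ) : M :=
  algebraMap κ M α / (algebraMap R M x - algebraMap κ M e) + algebraMap κ M β

variable {α β : κ}

theorem TT_sub (hC : Cov 2 κ R M x B Y) {b : κ} (hb : b ≠ e) :
    (TT κ x e α β : M) - algebraMap κ M (α / (b - e) + β) = algebraMap κ M (α / (e - b)) *
      ((algebraMap R M x - algebraMap κ M b) / (algebraMap R M x - algebraMap κ M e)) := by
  have h1 := sub_ne hC e
  have h2 : algebraMap κ M b - algebraMap κ M e ≠ 0 := by
    rw [← map_sub, Ne, map_eq_zero_iff _ (algebraMap κ M).injective]; exact sub_ne_zero.2 hb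
  have h3 : algebraMap κ M e - algebraMap κ M b ≠ 0 := by
    rw [← neg_sub]; exact neg_ne_zero.2 h2
  unfold TT
  rw [map_add, map_div₀, map_div₀, map_sub, map_sub]
  field_simp
  ring

/-- facts about `T - t` -/
theorem TT_facts (hC : Cov 2 κ R M x B Y) (he : e ∈ B) (hα : α ≠ 0) {t : κ}
    (ht : ∃ b ∈ B, b ≠ e ∧ α / (b - e) + β = t) :
    (TT κ x e α β : M) - algebraMap κ M t ≠ 0 ∧
    (∀ W : Place κ M, (2 : ℤ) ∣ W.ord ((TT κ x e α β : M) - algebraMap κ M t)) ∧
    (∀ W : Place κ M, 0 < W.ord (algebraMap R M x - algebraMap κ M e) →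
      W.ord ((TT κ x e α β : M) - algebraMap κ M t) = -2) := by
  obtain ⟨b, hb, hbe, rfl⟩ := ht
  rw [TT_sub hC hbe]
  have hc : α / (e - b) ≠ 0 := div_ne_zero hα (sub_ne_zero.2 (Ne.symm hbe))
  have hcM : algebraMap κ M (α / (e - b)) ≠ 0 := by
    rwa [Ne, map_eq_zero_iff _ (algebraMap κ M).injective]
  have hq := div_ne_zero (sub_ne hC b) (sub_ne hC e)
  refine ⟨mul_ne_zero hcM hq, fun W => ?_, fun W hW => ?_⟩
  · rw [W.ord_mul hcM hq, W.ord_const hc, zero_add]
    exact ord_even hC W hb he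
  · rw [W.ord_mul hcM hq, W.ord_const hc, zero_add, W.ord_div (sub_ne hC b) (sub_ne hC e),
      ord_above hC W hW he, ord_sub_const hW (Ne.symm hbe)]
    norm_num

theorem TT_val (hC : Cov 2 κ R M x B Y) {b : κ} (hb : b ≠ e) {W' : Place κ M}
    (hW' : 0 < W'.ord (algebraMap R M x - algebraMap κ M b)) :
    Lim W' (TT κ x e α β : M) (α / (b - e) + β) := by
  unfold Lim
  rw [TT_sub hC hb]
  refine Pos.reg_mul ?_ (W'.reg_const _)
  right
  rw [W'.ord_div (sub_ne hC b) (sub_ne hC e), ord_sub_const hW' hb, sub_zero]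
  exact hW'

/-- ratios tend to `1` -/
theorem ratio_lim {T : M} {W : Place κ M} {t s : κ} (hs0 : T - algebraMap κ M s ≠ 0)
    (hs : W.ord (T - algebraMap κ M s) = -2) :
    Lim W ((T - algebraMap κ M t) / (T - algebraMap κ M s)) 1 := by
  unfold Lim
  rw [map_one, show (T - algebraMap κ M t) / (T - algebraMap κ M s) - 1 =
    algebraMap κ M (s - t) / (T - algebraMap κ M s) by rw [map_sub]; field_simp; ring]
  by_cases h : s = t
  · left; rw [h, sub_self, map_zero, zero_div]
  · right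
    have h1 : s - t ≠ 0 := sub_ne_zero.2 h
    rw [W.ord_div (by rwa [Ne, map_eq_zero_iff _ (algebraMap κ M).injective]) hs0,
      W.ord_const h1, hs]
    norm_num

/-- products of two square roots are fixed -/
theorem prod_fix {W : Place κ M} {φ : M ≃+* M} {σ : κ → κ} (hφ : Fixes W φ)
    (hσ : ∀ c, φ (algebraMap κ M c) = algebraMap κ M (σ c)) (hσ1 : σ 1 = 1) (hσn : σ (-1) = -1)
    {z w : M} (hz : φ z = z ∨ φ z = -z) (hw : φ w = w ∨ φ w = -w)
    (hl : Lim W ((w / z) ^ 2) (1 : κ)) : φ (z * w) = z * w := by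
  have key : φ (w / z) = -(w / z) → False := by
    intro h
    have hl' : Lim W ((w / z) ^ 2) ((1 : κ) ^ 2) := by rw [one_pow]; exact hl
    rcases lim_sqrt hl' with h1 | h1
    · have h2 := h1.map hφ hσ
      rw [hσ1, h] at h2
      have h3 := h2.unique h1.neg
      have : (2 : κ) = 0 := by linear_combination h3
      exact two_ne_zero this
    · have h2 := h1.map hφ hσ
      rw [hσn, h] at h2
      have h3 := h2.unique h1.neg
      have : (2 : κ) = 0 := by linear_combination -h3
      exact two_ne_zero this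
  rw [map_mul]
  rcases hz with hz | hz <;> rcases hw with hw | hw
  · rw [hz, hw]
  · exact absurd (by rw [map_div₀, hz, hw, neg_div]) key
  · exact absurd (by rw [map_div₀, hz, hw, div_neg]) key
  · rw [hz, hw, neg_mul_neg]

end

end Pool.Agent.Zk90.TR
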