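import Pool.Agent.Zk90.TR.Nf4

/-!
# The first state of the chain

(helper90, part B of `Zk12/TR`.)
-/

set_option autoImplicit false

open Polynomial FF Pool.Agent.Y157.PS

namespace Pool.Agent.Zk90.TR

/-- the five finite branch points in the coordinate `T` -/
def LL {κ : Type} [Field κ] (t : κ) : Prop := t = 0 ∨ t = 1 ∨ t = -1 ∨ t = 3 ∨ t = -3

section

variable {κ R M : Type} [Field κ] [Field R] [Field M] [Algebra κ R]
  [Algebra R M] [Algebra κ M] [IsScalarTower κ R M] {x : R} {e : κ} {B : Finset κ} {Y : M}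

/-- data for the chain -/
structure Dat (x : R) (e : κ) (T : M) (φ : M ≃+* M) (σ : κ → κ) (W : Place κ M) : Prop where
  T0 : ∀ t : κ, LL t → T - algebraMap κ M t ≠ 0
  ev : ∀ t : κ, LL t → ∀ W₁ : Place κ M, (2 : ℤ) ∣ W₁.ord (T - algebraMap κ M t)
  ordT : ∀ t : κ, LL t → ∀ W₁ : Place κ M,
    0 < W₁.ord (algebraMap R M x - algebraMap κ M e) → W₁.ord (T - algebraMap κ M t) = -2
  fixT : ∀ c : M ≃ₐ[R] M, c T = T
  φT : φ T = T
  hσ : ∀ c, φ (algebraMap κ M c) = algebraMap κ M (σ c)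
  σi : ∀ n : ℤ, σ n = n
  above : 0 < W.ord (algebraMap R M x - algebraMap κ M e)
  fixW : Fixes W φ

variable {T : M} {φ : M ≃+* M} {σ : κ → κ} {W : Place κ M}

theorem Dat.σ1 (h : Dat x e T φ σ W) : σ 1 = 1 := by
  have := h.σi 1; rwa [Int.cast_one] at this

theorem Dat.σn (h : Dat x e T φ σ W) : σ (-1) = -1 := by
  have := h.σi (-1); rwa [Int.cast_neg, Int.cast_one] at this

theorem Dat.σt (h : Dat x e T φ σ W) {t : κ} (ht : LL t) : σ t = t := by
  rcases ht with rfl | rfl | rfl | rfl | rfl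
  · have := h.σi 0; rwa [Int.cast_zero] at this
  · exact h.σ1
  · exact h.σn
  · have := h.σi 3; exact_mod_cast this
  · have := h.σi (-3); push_cast at this; exact this

variable [IsAlgClosed κ] [CharZero κ]

/-- square roots of `T - t` -/
theorem Dat.root (h : Dat x e T φ σ W) (hC : Cov 2 κ R M x B Y) {s t : κ} (hs : LL s) (ht : LL t)
    {a : M} (ha : a ^ 2 = T - algebraMap κ M s) :
    ∃ w : M, w ^ 2 = T - algebraMap κ M t ∧ Lim W (w / a) (1 : κ) := by
  obtain ⟨w, hw⟩ := hC.root _ (h.T0 t ht) (h.ev t ht)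
  have h1 : Lim W ((w / a) ^ 2) ((1 : κ) ^ 2) := by
    rw [div_pow, hw, ha, one_pow]
    exact ratio_lim (h.T0 s hs) (h.ordT s hs W h.above)
  rcases lim_sqrt h1 with h2 | h2
  · exact ⟨w, hw, h2⟩
  · refine ⟨-w, by rw [neg_sq, hw], ?_⟩
    have := h2.neg
    rwa [neg_neg, ← neg_div] at this

/-- the products of two roots -/
theorem Dat.prod (h : Dat x e T φ σ W) {r s t : κ} (hr : LL r) (hs : LL s) (ht : LL t)
    {a z w : M} (ha : a ^ 2 = T - algebraMap κ M r) (hz : z ^ 2 = T - algebraMap κ M s)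
    (hw : w ^ 2 = T - algebraMap κ M t) (lz : Lim W (z / a) (1 : κ)) (lw : Lim W (w / a) (1 : κ)) :
    Lim W (z * w / T) (1 : κ) ∧ φ (z * w) = z * w ∧ Fe κ x e (z * w) := by
  have hT0 : T ≠ 0 := by
    have := h.T0 0 (Or.inl rfl); rwa [map_zero, sub_zero] at this
  have ha0 : a ≠ 0 := by
    rintro rfl
    rw [zero_pow two_ne_zero] at ha
    exact h.T0 r hr ha.symm
  refine ⟨?_, ?_, ?_⟩
  · have h1 : Lim W ((T - algebraMap κ M r) / (T - algebraMap κ M 0)) (1 : κ) :=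
      ratio_lim (h.T0 0 (Or.inl rfl)) (h.ordT 0 (Or.inl rfl) W h.above)
    rw [← ha, map_zero, sub_zero] at h1
    have h2 := (lz.mul lw).mul h1
    rw [one_mul, one_mul] at h2
    rwa [show z / a * (w / a) * (a ^ 2 / T) = z * w / T by field_simp] at h2
  · have hsg : ∀ {u : κ} {y : M}, LL u → y ^ 2 = T - algebraMap κ M u → φ y = y ∨ φ y = -y := by
      intro u y hu hy
      rw [← sq_eq_sq_iff_eq_or_eq_neg, ← map_pow, hy, map_sub, h.φT, h.hσ, h.σt hu]
    refine prod_fix h.fixW h.hσ h.σ1 h.σn (hsg hs hz) (hsg ht hw) ?_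
    rw [div_pow, hw, hz]
    exact ratio_lim (h.T0 s hs) (h.ordT s hs W h.above)
  · intro W₁ c h1 hc
    have hsg : ∀ {u : κ} {y : M}, LL u → y ^ 2 = T - algebraMap κ M u → c y = y ∨ c y = -y := by
      intro u y hu hy
      rw [← sq_eq_sq_iff_eq_or_eq_neg, ← map_pow, hy, map_sub, h.fixT, gal_const]
    refine prod_fix (φ := (c : M ≃+* M)) (σ := id) hc (fun b => gal_const c b) rfl rfl
      (hsg hs hz) (hsg ht hw) ?_
    rw [div_pow, hw, hz]
    exact ratio_lim (h.T0 s hs) (h.ordT s hs W₁ h1)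

omit [IsAlgClosed κ] in
/-- even orders -/
theorem ev_of {W₁ : Place κ M} {A A' : M} {c : κ} (hc : c ≠ 0)
    (hA : A ^ 2 - A' ^ 2 = algebraMap κ M c) (h : W₁.ord A = 2 ∨ W₁.ord A = -2) :
    (2 : ℤ) ∣ W₁.ord A' := by
  rcases h with h | h
  · have h1 : Lim W₁ (A' ^ 2) (-c) := by
      unfold Lim
      right
      rw [show A' ^ 2 - algebraMap κ M (-c) = A ^ 2 by rw [map_neg]; linear_combination -hA,
        W₁.ord_pow, h]
      norm_num
    have h2 := (h1.ne_zero (neg_ne_zero.2 hc)).2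
    rw [W₁.ord_pow] at h2
    push_cast at h2
    exact ⟨0, by omega⟩
  · rcases (ord_sum (W := W₁) hc hA).2 with ⟨h1, -, -⟩ | ⟨-, h1, -⟩
    · omega
    · rw [h1, h]; norm_num

omit [IsScalarTower κ R M] [IsAlgClosed κ] in
/-- the values at the other branch points -/
theorem val_of {t a b c d : κ} (ht : LL t) (ha : a ^ 2 = t - 1) (hb : b ^ 2 = t - -1)
    (hc : c ^ 2 = t - 3) (hd : d ^ 2 = t - -3) :
    (1 / 2 * (a * d + b * c)) ^ 2 = 0 ∨ (1 / 2 * (a * d + b * c)) ^ 2 = -3 ∨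
      (1 / 2 * (a * d + b * c)) ^ 2 = -1 ∨ (1 / 2 * (a * d + b * c)) ^ 2 = 3 := by
  have h1 : (1 / 2 * (a * d + b * c)) ^ 2 = (t ^ 2 - 3 + a * b * c * d) / 2 := by
    have : (1 / 2 * (a * d + b * c)) ^ 2 = (a ^ 2 * d ^ 2 + b ^ 2 * c ^ 2 + 2 * (a * b * c * d)) / 4 := by
      ring
    rw [this, ha, hb, hc, hd]
    ring
  have h2 : (a * b * c * d) ^ 2 = (t ^ 2 - 1) * (t ^ 2 - 9) := by
    have : (a * b * c * d) ^ 2 = a ^ 2 * b ^ 2 * c ^ 2 * d ^ 2 := by ring
    rw [this, ha, hb, hc, hd]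
    ring
  rw [h1]
  rcases ht with rfl | rfl | rfl | rfl | rfl
  · have h3 : (a * b * c * d) ^ 2 = 3 ^ 2 := by rw [h2]; norm_num
    rw [sq_eq_sq_iff_eq_or_eq_neg] at h3
    rcases h3 with h3 | h3 <;> rw [h3]
    · left; norm_num
    · right; left; norm_num
  · have h3 : a * b * c * d = 0 := by
      rw [← sq_eq_zero_iff, h2]; norm_num
    rw [h3]; right; right; left; norm_num
  · have h3 : a * b * c * d = 0 := by
      rw [← sq_eq_zero_iff, h2]; norm_num
    rw [h3]; right; right; left; norm_num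
  · have h3 : a * b * c * d = 0 := by
      rw [← sq_eq_zero_iff, h2]; norm_num
    rw [h3]; right; right; right; norm_num
  · have h3 : a * b * c * d = 0 := by
      rw [← sq_eq_zero_iff, h2]; norm_num
    rw [h3]; right; right; right; norm_num

/-- the first state -/
theorem Dat.base (h : Dat x e T φ σ W) (hC : Cov 2 κ R M x B Y) {W' : Place κ M} {t' : κ}
    (ht' : LL t') (hT' : Lim W' T t') :
    ∃ (a : M) (A : Fin 3 → M) (α : Fin 3 → κ), Top x e T a ∧ St x e φ W W' T 0 A α ∧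
      (α 0 ^ 2 = 0 ∨ α 0 ^ 2 = -3 ∨ α 0 ^ 2 = -1 ∨ α 0 ^ 2 = 3) := by
  have l0 : LL (0 : κ) := Or.inl rfl
  have l1 : LL (1 : κ) := Or.inr (Or.inl rfl)
  have l1' : LL (-1 : κ) := Or.inr (Or.inr (Or.inl rfl))
  have l3 : LL (3 : κ) := Or.inr (Or.inr (Or.inr (Or.inl rfl)))
  have l3' : LL (-3 : κ) := Or.inr (Or.inr (Or.inr (Or.inr rfl)))
  have hT0 : T ≠ 0 := by
    have := h.T0 0 l0; rwa [map_zero, sub_zero] at this
  obtain ⟨a, ha⟩ := hC.root _ (h.T0 1 l1) (h.ev 1 l1)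
  have hne : ∀ {u : κ} {y : M}, LL u → y ^ 2 = T - algebraMap κ M u → y ≠ 0 := by
    rintro u y hu hy rfl
    rw [zero_pow two_ne_zero] at hy
    exact h.T0 u hu hy.symm
  have ha0 := hne l1 ha
  have la : Lim W (a / a) (1 : κ) := by
    rw [div_self ha0]
    have := lim_const (W := W) (1 : κ)
    rwa [map_one] at this
  obtain ⟨b, hb, lb⟩ := h.root hC l1 l1' ha
  obtain ⟨c, hc, lc⟩ := h.root hC l1 l3 ha
  obtain ⟨d, hd, ld⟩ := h.root hC l1 l3' ha
  obtain ⟨p1, p2, p3⟩ := h.prod l1 l1 l3' ha ha hd la ld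
  obtain ⟨q1, q2, q3⟩ := h.prod l1 l1' l3 ha hb hc lb lc
  obtain ⟨r1, r2, r3⟩ := h.prod l1 l1 l3 ha ha hc la lc
  obtain ⟨s1, s2, s3⟩ := h.prod l1 l1' l3' ha hb hd lb ld
  obtain ⟨t1, t2, t3⟩ := h.prod l1 l1 l1' ha ha hb la lb
  obtain ⟨u1, u2, u3⟩ := h.prod l1 l3 l3' ha hc hd lc ld
  -- orders
  have hord : ∀ {u : κ} {y : M}, LL u → y ^ 2 = T - algebraMap κ M u → ∀ W₁ : Place κ M,
      0 < W₁.ord (algebraMap R M x - algebraMap κ M e) → W₁.ord y = -1 := by
    intro u y hu hy W₁ h1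
    have h2 := h.ordT u hu W₁ h1
    rw [← hy, W₁.ord_pow] at h2
    push_cast at h2
    omega
  have hTop : Top x e T a := by
    refine ⟨hT0, ha0, h.fixT, fun W₁ h1 => ?_, hord l1 ha, fun c => ?_⟩
    · have := h.ordT 0 l0 W₁ h1
      rwa [map_zero, sub_zero] at this
    · rw [← sq_eq_sq_iff_eq_or_eq_neg, ← map_pow, ha, map_sub, h.fixT, gal_const]
  -- values
  have hval : ∀ {u : κ} {y : M}, y ^ 2 = T - algebraMap κ M u →
      ∃ y' : κ, y' ^ 2 = t' - u ∧ Lim W' y y' := by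
    intro u y hy
    have h1 : Lim W' (y ^ 2) (t' - u) := by
      rw [hy]; exact hT'.sub (lim_const u)
    exact lim_sqrt' h1
  obtain ⟨a', ha', va⟩ := hval ha
  obtain ⟨b', hb', vb⟩ := hval hb
  obtain ⟨c', hc', vc⟩ := hval hc
  obtain ⟨d', hd', vd⟩ := hval hd
  set H : M := algebraMap κ M (1 / 2) with hH
  have hH2 : 2 * H = 1 := by
    rw [hH, ← map_ofNat (algebraMap κ M) 2, ← map_mul, show (OfNat.ofNat 2 : κ) * (1 / 2) = 1 by
      norm_num, map_one]
  rw [map_one] at ha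
  rw [map_neg, map_one, sub_neg_eq_add] at hb
  rw [map_ofNat] at hc
  rw [map_neg, map_ofNat, sub_neg_eq_add] at hd
  have e01 : (H * (a * d + b * c)) ^ 2 - (H * (a * c + b * d)) ^ 2 = -3 := by
    have : (H * (a * d + b * c)) ^ 2 - (H * (a * c + b * d)) ^ 2 =
      H ^ 2 * ((a ^ 2 - b ^ 2) * (d ^ 2 - c ^ 2)) := by ring
    rw [this, ha, hb, hc, hd]
    linear_combination (-3) * (2 * H + 1) * hH2
  have e02 : (H * (a * d + b * c)) ^ 2 - (H * (a * b + c * d)) ^ 2 = 1 := by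
    have : (H * (a * d + b * c)) ^ 2 - (H * (a * b + c * d)) ^ 2 =
      H ^ 2 * ((a ^ 2 - c ^ 2) * (d ^ 2 - b ^ 2)) := by ring
    rw [this, ha, hb, hc, hd]
    linear_combination (2 * H + 1) * hH2
  have hcon : algebraMap κ M (-3) = -3 := by rw [map_neg, map_ofNat]
  -- the lemma for one coordinate
  have hlim : ∀ {y z : M}, Lim W (y / T) (1 : κ) → Lim W (z / T) (1 : κ) →
      Lim W (H * (y + z) / T) (2 ^ 0) := by
    intro y z hy hz
    have h1 := (lim_const (W := W) (1 / 2 : κ)).mul (hy.add hz)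
    rw [← hH, ← add_div, ← mul_div_assoc] at h1
    exact h1.congr (by norm_num)
  have hfe : ∀ {y z : M}, Fe κ x e y → Fe κ x e z → Fe κ x e (H * (y + z)) := fun hy hz =>
    (Fe.const _).mul (hy.add hz)
  have hfix : ∀ {y z : M}, φ y = y → φ z = z → φ (H * (y + z)) = H * (y + z) := by
    intro y z hy hz
    rw [map_mul, map_add, hy, hz, hH, h.hσ]
    congr 2
    have h2 : σ (1 / 2) + σ (1 / 2) = 1 := by
      apply (algebraMap κ M).injective
      rw [map_add, ← h.hσ, ← map_add, ← map_add, show (1 / 2 + 1 / 2 : κ) = 1 by norm_num,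
        map_one, map_one]
    linear_combination h2 / 2
  have hv : ∀ {y z : M} {y' z' : κ}, Lim W' y y' → Lim W' z z' →
      Lim W' (H * (y + z)) (1 / 2 * (y' + z')) := fun hy hz => (lim_const _).mul (hy.add hz)
  -- even orders
  have hA2 : ∀ W₁ : Place κ M, 0 < W₁.ord (algebraMap R M x - algebraMap κ M e) →
      W₁.ord (H * (a * b + c * d)) = 2 ∨ W₁.ord (H * (a * b + c * d)) = -2 := by
    intro W₁ h1
    have ha1 := hTop.orda W₁ h1
    have hb1 : W₁.ord b = -1 := hord l1' (by rw [hb]; simp) W₁ h1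
    have hab : a * b ≠ 0 := mul_ne_zero ha0 (hne l1' (by rw [hb]; simp))
    have hab1 : W₁.ord (a * b) = -2 := by
      rw [W₁.ord_mul ha0 (hne l1' (by rw [hb]; simp)), ha1, hb1]; norm_num
    have h8 : (a * b) ^ 2 - (c * d) ^ 2 = algebraMap κ M 8 := by
      rw [map_ofNat, mul_pow, mul_pow, ha, hb, hc, hd]; ring
    have h2 := ord_sum (W := W₁) (by norm_num : (8 : κ) ≠ 0) h8
    have hH0 : H ≠ 0 := by
      intro h0; rw [h0, mul_zero] at hH2; exact zero_ne_one hH2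
    have hHo : W₁.ord H = 0 := by rw [hH]; exact W₁.ord_const (by norm_num)
    rw [W₁.ord_mul hH0 h2.1, hHo, zero_add]
    rcases h2.2 with ⟨h3, -, -⟩ | ⟨-, -, h3⟩
    · omega
    · rcases h3 with h3 | h3
      · right; omega
      · left; omega
  refine ⟨a, ![H * (a * d + b * c), H * (a * c + b * d), H * (a * b + c * d)],
    ![1 / 2 * (a' * d' + b' * c'), 1 / 2 * (a' * c' + b' * d'), 1 / 2 * (a' * b' + c' * d')],
    hTop, ⟨?_, ?_, ?_, ?_, ?_, ?_, ?_⟩, ?_⟩
  · change (H * (a * d + b * c)) ^ 2 - (H * (a * c + b * d)) ^ 2 = _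
    rw [e01, hcon]
  · change (H * (a * d + b * c)) ^ 2 - (H * (a * b + c * d)) ^ 2 = _
    rw [e02, map_one]
  · intro k; fin_cases k
    · exact hlim p1 q1
    · exact hlim r1 s1
    · exact hlim t1 u1
  · intro k; fin_cases k
    · exact hfe p3 q3
    · exact hfe r3 s3
    · exact hfe t3 u3
  · intro W₁ h1 k
    fin_cases k
    · refine ev_of (c := (-1 : κ)) (by norm_num) ?_ (hA2 W₁ h1)
      change (H * (a * b + c * d)) ^ 2 - (H * (a * d + b * c)) ^ 2 = _
      rw [map_neg, map_one]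
      linear_combination -e02
    · refine ev_of (c := (-4 : κ)) (by norm_num) ?_ (hA2 W₁ h1)
      change (H * (a * b + c * d)) ^ 2 - (H * (a * c + b * d)) ^ 2 = _
      rw [map_neg, map_ofNat]
      linear_combination e01 - e02
    · change (2 : ℤ) ∣ W₁.ord (H * (a * b + c * d))
      rcases hA2 W₁ h1 with h2 | h2 <;> rw [h2] <;> norm_num
  · intro k; fin_cases k
    · exact hfix p2 q2
    · exact hfix r2 s2
    · exact hfix t2 u2
  · intro k; fin_cases k
    · exact hv (va.mul vd) (vb.mul vc)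
    · exact hv (va.mul vc) (vb.mul vd)
    · exact hv (va.mul vb) (vc.mul vd)
  · exact val_of ht' ha' hb' hc' hd'

end

end Pool.Agent.Zk90.TR
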